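import Pool.Agent.Lib.P2f5a6b.Defs

set_option autoImplicit false

universe u

open CategoryTheory Limits Topology

namespace Pool.Agent.Lib.P2f5a6b

/-- The condition on triples: at most two different entries. -/
def Two {X : Type*} (p : X × X × X) : Prop := p.1 = p.2.1 ∨ p.1 = p.2.2 ∨ p.2.1 = p.2.2

/-- The space of triples with at most two different entries. -/
abbrev Tr (X : Type*) : Type _ := {p : X × X × X // Two p}

theorem isClosed_two (X : Type*) [TopologicalSpace X] [T2Space X] :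
    IsClosed {p : X × X × X | Two p} := by
  have h1 : IsClosed {p : X × X × X | p.1 = p.2.1} := isClosed_eq (by fun_prop) (by fun_prop)
  have h2 : IsClosed {p : X × X × X | p.1 = p.2.2} := isClosed_eq (by fun_prop) (by fun_prop)
  have h3 : IsClosed {p : X × X × X | p.2.1 = p.2.2} := isClosed_eq (by fun_prop) (by fun_prop)
  exact h1.union (h2.union h3)

instance (X : Type*) [TopologicalSpace X] [T2Space X] [CompactSpace X] : CompactSpace (Tr X) :=
  isCompact_iff_compactSpace.1 (isClosed_two X).isCompact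

/-- The action on maps. -/
def trMap {X Y : Type*} (f : X → Y) (p : Tr X) : Tr Y :=
  ⟨(f p.1.1, f p.1.2.1, f p.1.2.2), by
    rcases p.2 with h | h | h
    · exact Or.inl (congrArg f h)
    · exact Or.inr (Or.inl (congrArg f h))
    · exact Or.inr (Or.inr (congrArg f h))⟩

theorem continuous_trMap {X Y : Type*} [TopologicalSpace X] [TopologicalSpace Y] {f : X → Y}
    (hf : Continuous f) : Continuous (trMap f) := by
  refine Continuous.subtype_mk ?_ _
  fun_prop

/-- The functor. -/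
def F : CompHaus.{u} ⥤ CompHaus.{u} where
  obj X := CompHaus.of (Tr X)
  map f := CompHausLike.ofHom _ ⟨trMap f, continuous_trMap (ConcreteCategory.hom f).continuous⟩
  map_id _ := ConcreteCategory.hom_ext _ _ fun _ => rfl
  map_comp _ _ := ConcreteCategory.hom_ext _ _ fun _ => rfl

theorem F_map_apply {X Y : CompHaus.{u}} (f : X ⟶ Y) (p : Tr X) :
    (F.map f : Tr X → Tr Y) p = trMap f p := rfl

theorem F_map_coe {X Y : CompHaus.{u}} (f : X ⟶ Y) :
    (F.map f : Tr X → Tr Y) = trMap f := rfl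

theorem trMap_injective {X Y : Type*} {f : X → Y} (hf : Function.Injective f) :
    Function.Injective (trMap f) := by
  intro p q h
  have h1 := congrArg Subtype.val h
  simp only [trMap, Prod.mk.injEq] at h1
  apply Subtype.ext
  exact Prod.ext (hf h1.1) (Prod.ext (hf h1.2.1) (hf h1.2.2))

/-- A triple in `range f` lifts to a triple with at most two entries. -/
theorem exists_lift {X Y : Type*} (f : X → Y) (q : Tr Y) (h1 : q.1.1 ∈ Set.range f)
    (h2 : q.1.2.1 ∈ Set.range f) (h3 : q.1.2.2 ∈ Set.range f) : ∃ p : Tr X, trMap f p = q := by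
  obtain ⟨⟨a, b, c⟩, hq⟩ := q
  obtain ⟨x, hx⟩ := h1
  obtain ⟨y, hy⟩ := h2
  obtain ⟨z, hz⟩ := h3
  simp only at hx hy hz
  rcases hq with h | h | h
  · simp only at h
    exact ⟨⟨(x, x, z), Or.inl rfl⟩, Subtype.ext (by simp [trMap, hx, hz, h])⟩
  · simp only at h
    exact ⟨⟨(x, y, x), Or.inr (Or.inl rfl)⟩, Subtype.ext (by simp [trMap, hx, hy, h])⟩
  · simp only at h
    exact ⟨⟨(x, y, y), Or.inr (Or.inr rfl)⟩, Subtype.ext (by simp [trMap, hx, hy, h])⟩

theorem range_trMap {X Y : Type*} (f : X → Y) :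
    Set.range (trMap f) = {q | q.1.1 ∈ Set.range f ∧ q.1.2.1 ∈ Set.range f ∧
      q.1.2.2 ∈ Set.range f} := by
  ext q
  constructor
  · rintro ⟨p, rfl⟩
    exact ⟨⟨_, rfl⟩, ⟨_, rfl⟩, ⟨_, rfl⟩⟩
  · rintro ⟨h1, h2, h3⟩
    exact exists_lift f q h1 h2 h3

/-! ### Continuity of the functor -/

theorem preservesLimit {J : Type u} [SmallCategory J] [IsCofiltered J] (K : J ⥤ CompHaus.{u}) :
    PreservesLimit K F := by
  refine ⟨fun {c} hc => ?_⟩
  have hc' : IsLimit ((forget CompHaus.{u}).mapCone c) := isLimitOfPreserves _ hc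
  have hsec := (Types.isLimit_iff _).1 ⟨hc'⟩
  have : ReflectsLimit (K ⋙ F) (forget CompHaus.{u}) :=
    reflectsLimit_of_reflectsIsomorphisms _ _
  suffices h : Nonempty (IsLimit ((forget CompHaus.{u}).mapCone (F.mapCone c))) from
    ⟨isLimitOfReflects (forget CompHaus.{u}) h.some⟩
  rw [Types.isLimit_iff]
  intro s hs
  -- a compatible family of triples
  let s' : ∀ j, Tr (K.obj j) := fun j => s j
  have hs' : ∀ {i j : J} (f : i ⟶ j), trMap (K.map f) (s' i) = s' j := fun f => hs f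
  -- the three coordinates
  have hsec' : ∀ (t : ∀ j, K.obj j), (∀ {i j : J} (f : i ⟶ j), K.map f (t i) = t j) →
      ∃! x : c.pt, ∀ j, c.π.app j x = t j := by
    intro t ht
    exact hsec t fun f => ht f
  obtain ⟨x, hx, hxu⟩ := hsec' (fun j => (s' j).1.1) fun f =>
    congrArg (fun p => p.1.1) (hs' f)
  obtain ⟨y, hy, hyu⟩ := hsec' (fun j => (s' j).1.2.1) fun f =>
    congrArg (fun p => p.1.2.1) (hs' f)
  obtain ⟨z, hz, hzu⟩ := hsec' (fun j => (s' j).1.2.2) fun f =>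
    congrArg (fun p => p.1.2.2) (hs' f)
  have hnat : ∀ {i j : J} (f : i ⟶ j) (w : c.pt), K.map f (c.π.app i w) = c.π.app j w := by
    intro i j f w
    rw [← c.w f]
    rfl
  have hne : ∀ a b : c.pt, a ≠ b → ∃ j, c.π.app j a ≠ c.π.app j b := by
    intro a b hab
    by_contra hcon
    push Not at hcon
    obtain ⟨_, _, hu⟩ := hsec' (fun j => c.π.app j b) fun f => hnat f b
    exact hab ((hu a hcon).trans (hu b fun _ => rfl).symm)
  have htwo : Two (x, y, z) := by
    by_contra hcon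
    unfold Two at hcon
    push Not at hcon
    obtain ⟨hxy, hxz, hyz⟩ := hcon
    obtain ⟨j₁, hj₁⟩ := hne _ _ hxy
    obtain ⟨j₂, hj₂⟩ := hne _ _ hxz
    obtain ⟨j₃, hj₃⟩ := hne _ _ hyz
    let j₁₂ := IsCofiltered.min j₁ j₂
    let j := IsCofiltered.min j₁₂ j₃
    have f₁ : j ⟶ j₁ := IsCofiltered.minToLeft _ _ ≫ IsCofiltered.minToLeft _ _
    have f₂ : j ⟶ j₂ := IsCofiltered.minToLeft _ _ ≫ IsCofiltered.minToRight _ _
    have f₃ : j ⟶ j₃ := IsCofiltered.minToRight _ _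
    have key : ∀ {i : J} (f : j ⟶ i) (a b : c.pt), c.π.app i a ≠ c.π.app i b →
        c.π.app j a ≠ c.π.app j b := by
      intro i f a b hab h
      apply hab
      rw [← hnat f a, ← hnat f b, h]
    have h1 := key f₁ _ _ hj₁
    have h2 := key f₂ _ _ hj₂
    have h3 := key f₃ _ _ hj₃
    rw [hx, hy] at h1
    rw [hx, hz] at h2
    rw [hy, hz] at h3
    rcases (s' j).2 with h | h | h
    · exact h1 h
    · exact h2 h
    · exact h3 h
  refine ⟨(⟨(x, y, z), htwo⟩ : Tr c.pt), ?_, ?_⟩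
  · intro j
    show trMap (c.π.app j) ⟨(x, y, z), htwo⟩ = s' j
    apply Subtype.ext
    exact Prod.ext (hx j) (Prod.ext (hy j) (hz j))
  · intro w hw
    have hw' : ∀ j, trMap (c.π.app j) (show Tr c.pt from w) = s' j := fun j => hw j
    show (show Tr c.pt from w) = ⟨(x, y, z), htwo⟩
    apply Subtype.ext
    refine Prod.ext ?_ (Prod.ext ?_ ?_)
    · exact hxu _ fun j => congrArg (fun p => p.1.1) (hw' j)
    · exact hyu _ fun j => congrArg (fun p => p.1.2.1) (hw' j)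
    · exact hzu _ fun j => congrArg (fun p => p.1.2.2) (hw' j)

/-! ### Weight -/

theorem weight_spec (X : Type u) [TopologicalSpace X] :
    ∃ B : Set (Set X), TopologicalSpace.IsTopologicalBasis B ∧ Cardinal.mk B = weight X :=
  csInf_mem (s := {κ | ∃ B : Set (Set X), TopologicalSpace.IsTopologicalBasis B ∧
    Cardinal.mk B = κ}) ⟨_, {U | IsOpen U}, TopologicalSpace.isTopologicalBasis_opens, rfl⟩

theorem weight_tr (X : Type u) [TopologicalSpace X] [T2Space X] [Infinite X] :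
    weight (Tr X) ≤ weight X := by
  obtain ⟨B, hB, hBc⟩ := weight_spec X
  -- `B` is infinite
  have hBinf : Infinite B := by
    by_contra hfin
    rw [not_infinite_iff_finite] at hfin
    have hinj : Function.Injective fun (x : X) => ({U | x ∈ (U : Set X)} : Set B) := by
      intro x y hxy
      by_contra hne
      obtain ⟨U, V, hU, hV, hx, hy, hd⟩ := t2_separation hne
      obtain ⟨W, hW, hxW, hWU⟩ := hB.exists_subset_of_mem_open hx hU
      have h1 : (⟨W, hW⟩ : B) ∈ ({U | x ∈ (U : Set X)} : Set B) := hxW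
      have h2 : (⟨W, hW⟩ : B) ∈ ({U | y ∈ (U : Set X)} : Set B) := by
        have hxy' : ({U | x ∈ (U : Set X)} : Set B) = ({U | y ∈ (U : Set X)} : Set B) := hxy
        rw [← hxy']
        exact h1
      exact Set.disjoint_left.1 hd (hWU h2) hy
    exact (Infinite.of_injective _ hinj).not_finite inferInstance
  -- the base of the subspace of the cube
  let b : B × B × B → Set (Tr X) := fun q => {p | p.1.1 ∈ (q.1 : Set X) ∧
    p.1.2.1 ∈ (q.2.1 : Set X) ∧ p.1.2.2 ∈ (q.2.2 : Set X)}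
  have hb : TopologicalSpace.IsTopologicalBasis (Set.range b) := by
    refine TopologicalSpace.isTopologicalBasis_of_isOpen_of_nhds ?_ ?_
    · rintro _ ⟨⟨U, V, W⟩, rfl⟩
      have h1 : IsOpen {p : Tr X | p.1.1 ∈ (U : Set X)} :=
        (hB.isOpen U.2).preimage (by fun_prop)
      have h2 : IsOpen {p : Tr X | p.1.2.1 ∈ (V : Set X)} :=
        (hB.isOpen V.2).preimage (by fun_prop)
      have h3 : IsOpen {p : Tr X | p.1.2.2 ∈ (W : Set X)} :=
        (hB.isOpen W.2).preimage (by fun_prop)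
      exact h1.inter (h2.inter h3)
    · rintro ⟨⟨x, y, z⟩, hp⟩ O hO hOo
      obtain ⟨O', hO', rfl⟩ := isOpen_induced_iff.1 hOo
      have hmem : O' ∈ 𝓝 (x, y, z) := hO'.mem_nhds hO
      rw [nhds_prod_eq, nhds_prod_eq] at hmem
      obtain ⟨U, hU, VW, hVW, hsub⟩ := Filter.mem_prod_iff.1 hmem
      obtain ⟨V, hV, W, hW, hsub'⟩ := Filter.mem_prod_iff.1 hVW
      obtain ⟨U', hU', hxU, hUU⟩ := hB.mem_nhds_iff.1 hU
      obtain ⟨V', hV', hyV, hVV⟩ := hB.mem_nhds_iff.1 hV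
      obtain ⟨W', hW', hzW, hWW⟩ := hB.mem_nhds_iff.1 hW
      refine ⟨_, ⟨(⟨U', hU'⟩, ⟨V', hV'⟩, ⟨W', hW'⟩), rfl⟩, ⟨hxU, hyV, hzW⟩, ?_⟩
      rintro ⟨⟨x', y', z'⟩, hp'⟩ ⟨h1, h2, h3⟩
      exact hsub ⟨hUU h1, hsub' ⟨hVV h2, hWW h3⟩⟩
  calc weight (Tr X) ≤ Cardinal.mk (Set.range b) := csInf_le' ⟨_, hb, rfl⟩
    _ ≤ Cardinal.mk (B × B × B) := Cardinal.mk_range_le
    _ = Cardinal.mk B := by
      rw [Cardinal.mk_prod, Cardinal.mk_prod]
      simp only [Cardinal.lift_id]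
      have h := Cardinal.mul_eq_self (Cardinal.aleph0_le_mk B)
      rw [h, h]
    _ = weight X := hBc

/-! ### Preimages -/

theorem preimage_F {X' Y' X Y : Type*} {f' : X' → Y'} {f : X → Y} {pX : X' → X} {pY : Y' → Y}
    (hf : Function.Injective f)
    (h : IsBicommutative f' f pX pY) :
    IsBicommutative (trMap f') (trMap f) (trMap pX) (trMap pY) := by
  obtain ⟨hcomm, hbi⟩ := h
  have hcomm' : ∀ x', trMap f (trMap pX x') = trMap pY (trMap f' x') := by
    intro p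
    apply Subtype.ext
    simp only [trMap, hcomm]
  refine ⟨hcomm', fun p => ?_⟩
  apply Set.Subset.antisymm
  · rintro _ ⟨q, hq, rfl⟩
    show trMap pY (trMap f' q) = trMap f p
    rw [← hcomm']
    exact congrArg (trMap f) hq
  · intro q hq
    have hq' : trMap pY q = trMap f p := hq
    have key : ∀ (x : X) (y' : Y'), pY y' = f x → ∃ x', pX x' = x ∧ f' x' = y' := by
      intro x y' hxy
      have : y' ∈ f' '' (pX ⁻¹' {x}) := by rw [hbi x]; exact hxy
      obtain ⟨x', hx', hx''⟩ := this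
      exact ⟨x', hx', hx''⟩
    have e1 : pY q.1.1 = f p.1.1 := congrArg (fun p => p.1.1) hq'
    have e2 : pY q.1.2.1 = f p.1.2.1 := congrArg (fun p => p.1.2.1) hq'
    have e3 : pY q.1.2.2 = f p.1.2.2 := congrArg (fun p => p.1.2.2) hq'
    obtain ⟨a, ha, ha'⟩ := key _ _ e1
    obtain ⟨b, hb, hb'⟩ := key _ _ e2
    obtain ⟨c, hc, hc'⟩ := key _ _ e3
    obtain ⟨r, hr⟩ := exists_lift f' q ⟨a, ha'⟩ ⟨b, hb'⟩ ⟨c, hc'⟩
    refine ⟨r, ?_, hr⟩
    apply trMap_injective hf
    show trMap f (trMap pX r) = trMap f p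
    rw [hcomm', hr, hq']

/-! ### Skeletality -/

theorem isOpen_box {X : Type*} [TopologicalSpace X] {A B C : Set X} (hA : IsOpen A)
    (hB : IsOpen B) (hC : IsOpen C) :
    IsOpen {p : Tr X | p.1.1 ∈ A ∧ p.1.2.1 ∈ B ∧ p.1.2.2 ∈ C} := by
  have h1 : IsOpen {p : Tr X | p.1.1 ∈ A} := hA.preimage (by fun_prop)
  have h2 : IsOpen {p : Tr X | p.1.2.1 ∈ B} := hB.preimage (by fun_prop)
  have h3 : IsOpen {p : Tr X | p.1.2.2 ∈ C} := hC.preimage (by fun_prop)
  exact h1.inter (h2.inter h3)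

/-- Every neighbourhood of a triple contains a box. -/
theorem exists_box {X : Type*} [TopologicalSpace X] {W : Set (Tr X)} (hW : IsOpen W)
    {p : Tr X} (hp : p ∈ W) : ∃ A B C : Set X, IsOpen A ∧ IsOpen B ∧ IsOpen C ∧ p.1.1 ∈ A ∧
      p.1.2.1 ∈ B ∧ p.1.2.2 ∈ C ∧
      ∀ q : Tr X, q.1.1 ∈ A → q.1.2.1 ∈ B → q.1.2.2 ∈ C → q ∈ W := by
  obtain ⟨O', hO', rfl⟩ := isOpen_induced_iff.1 hW
  obtain ⟨⟨x, y, z⟩, hp'⟩ := p
  have hmem : O' ∈ 𝓝 (x, y, z) := hO'.mem_nhds hp
  rw [nhds_prod_eq, nhds_prod_eq] at hmem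
  obtain ⟨U, hU, VW, hVW, hsub⟩ := Filter.mem_prod_iff.1 hmem
  obtain ⟨V, hV, W, hW, hsub'⟩ := Filter.mem_prod_iff.1 hVW
  obtain ⟨U', hUU, hU', hxU⟩ := mem_nhds_iff.1 hU
  obtain ⟨V', hVV, hV', hyV⟩ := mem_nhds_iff.1 hV
  obtain ⟨W', hWW, hW', hzW⟩ := mem_nhds_iff.1 hW
  refine ⟨U', V', W', hU', hV', hW', hxU, hyV, hzW, ?_⟩
  rintro ⟨⟨x', y', z'⟩, hq⟩ h1 h2 h3
  exact hsub ⟨hUU h1, hsub' ⟨hVV h2, hWW h3⟩⟩

/-- The crucial step: images of nonempty open sets have nonempty interior. -/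
theorem image_interior {X Y : Type*} [TopologicalSpace X] [T2Space X] [TopologicalSpace Y]
    [T2Space Y] {f : X → Y} (hf : IsOpenMap f) {W : Set (Tr X)} (hW : IsOpen W) (hne : W.Nonempty) :
    (interior (trMap f '' W)).Nonempty := by
  -- an isolated point of `Y` which is hit gives the result
  have hiso : ∀ (p : Tr X) (y : Y), p ∈ W → IsOpen ({y} : Set Y) → f p.1.1 = y →
      f p.1.2.1 = y → f p.1.2.2 = y → (interior (trMap f '' W)).Nonempty := by
    intro p y hp hy h1 h2 h3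
    refine ⟨trMap f p, mem_interior.2 ⟨_, ?_, isOpen_box hy hy hy, h1, h2, h3⟩⟩
    rintro q ⟨k1, k2, k3⟩
    refine ⟨p, hp, Subtype.ext ?_⟩
    simp only [Set.mem_singleton_iff] at k1 k2 k3
    exact Prod.ext (h1.trans k1.symm) (Prod.ext (h2.trans k2.symm) (h3.trans k3.symm))
  -- the general situation with two open sets
  have hgen : ∀ (G H : Set Y), IsOpen G → IsOpen H → G.Nonempty → H.Nonempty →
      (∃ y, IsOpen ({y} : Set Y) ∧ y ∈ G ∧ y ∈ H) ∨
        ∃ G' H' : Set Y, IsOpen G' ∧ IsOpen H' ∧ G'.Nonempty ∧ H'.Nonempty ∧ G' ⊆ G ∧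
          H' ⊆ H ∧ Disjoint G' H' := by
    intro G H hG hH ⟨u, hu⟩ ⟨v, hv⟩
    by_cases h : ∃ u ∈ G, ∃ v ∈ H, u ≠ v
    · obtain ⟨u, hu, v, hv, huv⟩ := h
      obtain ⟨O₁, O₂, hO₁, hO₂, h1, h2, hd⟩ := t2_separation huv
      exact Or.inr ⟨G ∩ O₁, H ∩ O₂, hG.inter hO₁, hH.inter hO₂, ⟨u, hu, h1⟩, ⟨v, hv, h2⟩,
        Set.inter_subset_left, Set.inter_subset_left,
        hd.mono Set.inter_subset_right Set.inter_subset_right⟩
    · push Not at h
      left
      have hGe : G = {v} := by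
        apply Set.Subset.antisymm
        · intro w hw; exact h w hw v hv
        · intro w hw
          rw [Set.mem_singleton_iff.1 hw, ← h u hu v hv]
          exact hu
      exact ⟨v, hGe ▸ hG, hGe ▸ rfl, hv⟩
  have hsepX : ∀ x y : X, x ≠ y → ∃ O₁ O₂ : Set X, IsOpen O₁ ∧ IsOpen O₂ ∧ x ∈ O₁ ∧ y ∈ O₂ ∧
      Disjoint O₁ O₂ := fun x y h => t2_separation h
  by_cases hcase : ∃ p ∈ W, p.1.1 ≠ p.1.2.1 ∨ p.1.1 ≠ p.1.2.2
  · obtain ⟨⟨⟨x, y, z⟩, hp2⟩, hp, hpne⟩ := hcase
    simp only at hpne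
    obtain ⟨A, B, C, hA, hB, hC, h1, h2, h3, hbox⟩ := exists_box hW hp
    simp only at h1 h2 h3
    rcases hp2 with hxy | hxz | hyz
    · -- pattern `(x, x, z)`
      simp only at hxy
      have hne : x ≠ z := by
        rcases hpne with h | h
        · exact absurd hxy h
        · exact h
      obtain ⟨O₁, O₂, hO₁, hO₂, k1, k2, hd⟩ := hsepX x z hne
      have hP : IsOpen (A ∩ B ∩ O₁) := (hA.inter hB).inter hO₁
      have hQ : IsOpen (C ∩ O₂) := hC.inter hO₂
      rcases hgen _ _ (hf _ hP) (hf _ hQ) ⟨_, x, ⟨⟨h1, by rw [hxy]; exact h2⟩, k1⟩, rfl⟩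
        ⟨_, z, ⟨h3, k2⟩, rfl⟩ with ⟨w, hw, ⟨a, ha, haw⟩, ⟨c, hc, hcw⟩⟩ |
          ⟨G, H, hG, hH, ⟨u, hu⟩, ⟨v, hv⟩, hGs, hHs, hdis⟩
      · exact hiso ⟨(a, a, c), Or.inl rfl⟩ w (hbox _ ha.1.1 ha.1.2 hc.1) hw haw haw hcw
      · refine ⟨⟨(u, u, v), Or.inl rfl⟩, mem_interior.2 ⟨_, ?_, isOpen_box hG hG hH, hu, hu, hv⟩⟩
        rintro ⟨⟨u', u'', v'⟩, hq⟩ ⟨m1, m2, m3⟩
        simp only at m1 m2 m3
        have e : u' = u'' := by
          rcases hq with h | h | h
          · exact h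
          · simp only at h
            exact absurd m3 (fun h' => Set.disjoint_left.1 hdis m1 (h ▸ h'))
          · simp only at h
            exact absurd m3 (fun h' => Set.disjoint_left.1 hdis m2 (h ▸ h'))
        obtain ⟨a, ha, rfl⟩ := hGs m1
        obtain ⟨c, hc, rfl⟩ := hHs m3
        refine ⟨⟨(a, a, c), Or.inl rfl⟩, hbox _ ha.1.1 ha.1.2 hc.1, Subtype.ext ?_⟩
        simp [trMap, e]
    · -- pattern `(x, y, x)`
      simp only at hxz
      have hne : x ≠ y := by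
        rcases hpne with h | h
        · exact h
        · exact absurd hxz h
      obtain ⟨O₁, O₂, hO₁, hO₂, k1, k2, hd⟩ := hsepX x y hne
      have hP : IsOpen (A ∩ C ∩ O₁) := (hA.inter hC).inter hO₁
      have hQ : IsOpen (B ∩ O₂) := hB.inter hO₂
      rcases hgen _ _ (hf _ hP) (hf _ hQ) ⟨_, x, ⟨⟨h1, by rw [hxz]; exact h3⟩, k1⟩, rfl⟩
        ⟨_, y, ⟨h2, k2⟩, rfl⟩ with ⟨w, hw, ⟨a, ha, haw⟩, ⟨c, hc, hcw⟩⟩ |
          ⟨G, H, hG, hH, ⟨u, hu⟩, ⟨v, hv⟩, hGs, hHs, hdis⟩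
      · exact hiso ⟨(a, c, a), Or.inr (Or.inl rfl)⟩ w (hbox _ ha.1.1 hc.1 ha.1.2) hw haw hcw haw
      · refine ⟨⟨(u, v, u), Or.inr (Or.inl rfl)⟩,
          mem_interior.2 ⟨_, ?_, isOpen_box hG hH hG, hu, hv, hu⟩⟩
        rintro ⟨⟨u', v', u''⟩, hq⟩ ⟨m1, m2, m3⟩
        simp only at m1 m2 m3
        have e : u' = u'' := by
          rcases hq with h | h | h
          · simp only at h
            exact absurd m2 (fun h' => Set.disjoint_left.1 hdis m1 (h ▸ h'))
          · exact h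
          · simp only at h
            exact absurd m2 (fun h' => Set.disjoint_left.1 hdis m3 (h ▸ h'))
        obtain ⟨a, ha, rfl⟩ := hGs m1
        obtain ⟨c, hc, rfl⟩ := hHs m2
        refine ⟨⟨(a, c, a), Or.inr (Or.inl rfl)⟩, hbox _ ha.1.1 hc.1 ha.1.2, Subtype.ext ?_⟩
        simp [trMap, e]
    · -- pattern `(x, y, y)`
      simp only at hyz
      have hne : y ≠ x := by
        rcases hpne with h | h
        · exact h.symm
        · rw [hyz]; exact h.symm
      obtain ⟨O₁, O₂, hO₁, hO₂, k1, k2, hd⟩ := hsepX y x hne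
      have hP : IsOpen (B ∩ C ∩ O₁) := (hB.inter hC).inter hO₁
      have hQ : IsOpen (A ∩ O₂) := hA.inter hO₂
      rcases hgen _ _ (hf _ hP) (hf _ hQ) ⟨_, y, ⟨⟨h2, by rw [hyz]; exact h3⟩, k1⟩, rfl⟩
        ⟨_, x, ⟨h1, k2⟩, rfl⟩ with ⟨w, hw, ⟨a, ha, haw⟩, ⟨c, hc, hcw⟩⟩ |
          ⟨G, H, hG, hH, ⟨u, hu⟩, ⟨v, hv⟩, hGs, hHs, hdis⟩
      · exact hiso ⟨(c, a, a), Or.inr (Or.inr rfl)⟩ w (hbox _ hc.1 ha.1.1 ha.1.2) hw hcw haw haw
      · refine ⟨⟨(v, u, u), Or.inr (Or.inr rfl)⟩,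
          mem_interior.2 ⟨_, ?_, isOpen_box hH hG hG, hv, hu, hu⟩⟩
        rintro ⟨⟨v', u', u''⟩, hq⟩ ⟨m1, m2, m3⟩
        simp only at m1 m2 m3
        have e : u' = u'' := by
          rcases hq with h | h | h
          · simp only at h
            exact absurd m1 (fun h' => Set.disjoint_left.1 hdis m2 (h ▸ h'))
          · simp only at h
            exact absurd m1 (fun h' => Set.disjoint_left.1 hdis m3 (h ▸ h'))
          · exact h
        obtain ⟨a, ha, rfl⟩ := hGs m2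
        obtain ⟨c, hc, rfl⟩ := hHs m1
        refine ⟨⟨(c, a, a), Or.inr (Or.inr rfl)⟩, hbox _ hc.1 ha.1.1 ha.1.2, Subtype.ext ?_⟩
        simp [trMap, e]
  · push Not at hcase
    obtain ⟨p, hp⟩ := hne
    obtain ⟨A, B, C, hA, hB, hC, h1, h2, h3, hbox⟩ := exists_box hW hp
    obtain ⟨e1, e2⟩ := hcase p hp
    -- the first coordinate is isolated
    have hAs : A ∩ B ∩ C = {p.1.1} := by
      apply Set.Subset.antisymm
      · rintro b ⟨⟨hbA, hbB⟩, hbC⟩
        have hq : (⟨(p.1.1, p.1.1, b), Or.inl rfl⟩ : Tr X) ∈ W :=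
          hbox _ h1 (show p.1.1 ∈ B by rw [e1]; exact h2) hbC
        exact (hcase _ hq).2.symm
      · intro b hb
        rw [Set.mem_singleton_iff.1 hb]
        exact ⟨⟨h1, by rw [e1]; exact h2⟩, by rw [e2]; exact h3⟩
    have hopen : IsOpen ({f p.1.1} : Set Y) := by
      have := hf _ ((hA.inter hB).inter hC)
      rwa [hAs, Set.image_singleton] at this
    exact hiso p _ hp hopen rfl (congrArg f e1.symm) (congrArg f e2.symm)

theorem isSkeletalMap_trMap {X Y : Type*} [TopologicalSpace X] [T2Space X] [CompactSpace X]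
    [TopologicalSpace Y] [T2Space Y] [CompactSpace Y] {f : X → Y} (hfc : Continuous f)
    (hf : IsOpenMap f) : IsSkeletalMap (trMap f) := by
  intro A hA
  have hcont := continuous_trMap hfc
  -- pass to the closure
  have hsub : closure (trMap f ⁻¹' A) ⊆ trMap f ⁻¹' closure A :=
    closure_minimal (Set.preimage_mono subset_closure) (isClosed_closure.preimage hcont)
  rw [IsNowhereDense, Set.eq_empty_iff_forall_notMem]
  intro p hp
  have hW : IsOpen (interior (closure (trMap f ⁻¹' A))) := isOpen_interior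
  obtain ⟨q, hq⟩ := image_interior hf hW ⟨p, hp⟩
  have h1 : trMap f '' interior (closure (trMap f ⁻¹' A)) ⊆ closure A := by
    rintro _ ⟨r, hr, rfl⟩
    exact hsub (interior_subset hr)
  have h2 : q ∈ interior (closure A) := interior_mono h1 hq
  rw [show interior (closure A) = ∅ from hA] at h2
  exact h2

/-! ### The functor is normal, finitary and skeletal -/

theorem isNormal_F : IsNormal F.{u} where
  mono f hf := trMap_injective hf
  epi f hf := by
    intro q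
    exact exists_lift _ q (hf _) (hf _) (hf _)
  continuous J _ _ := ⟨fun {K} => preservesLimit K⟩
  inter {X A} i {ι} B j hi hj h := by
    show Set.range (trMap i) = ⋂ k, Set.range (trMap (j k))
    rw [range_trMap, h]
    ext q
    simp only [range_trMap, Set.mem_iInter, Set.mem_ofPred_eq]
    exact ⟨fun ⟨h1, h2, h3⟩ k => ⟨h1 k, h2 k, h3 k⟩,
      fun h => ⟨fun k => (h k).1, fun k => (h k).2.1, fun k => (h k).2.2⟩⟩
  empty X hX := ⟨fun p => hX.false (show Tr X from p).1.1⟩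
  point X := by
    rintro ⟨⟨x⟩, hs⟩
    refine ⟨⟨(⟨(x, x, x), Or.inl rfl⟩ : Tr X)⟩, ⟨fun p q => ?_⟩⟩
    exact Subtype.ext (Prod.ext (Subsingleton.elim _ _)
      (Prod.ext (Subsingleton.elim _ _) (Subsingleton.elim _ _)))
  weight_le X hX := weight_tr X
  preimage f' f pX pY _ hf h := preimage_F hf h

theorem isFinitary_F : IsFinitary F.{u} := by
  intro X hX
  show Finite (Tr X)
  infer_instance

theorem isSkeletalFunctor_F : IsSkeletalFunctor F.{u} := by
  intro X Y f _ hf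
  exact isSkeletalMap_trMap (ConcreteCategory.hom f).continuous hf

end Pool.Agent.Lib.P2f5a6b
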