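import Mathlib

set_option autoImplicit false

universe u

open CategoryTheory Limits

namespace Pool.Agent.Lib.P2f5a6b

/-- A map is skeletal if preimages of nowhere dense sets are nowhere dense. -/
def IsSkeletalMap {X Y : Type*} [TopologicalSpace X] [TopologicalSpace Y] (f : X → Y) : Prop :=
  ∀ A : Set Y, IsNowhereDense A → IsNowhereDense (f ⁻¹' A)

/-- A square of maps `f' : X' → Y'`, `f : X → Y`, `pX : X' → X`, `pY : Y' → Y` is bicommutative:
it commutes and `f' '' (pX ⁻¹' {x}) = pY ⁻¹' {f x}` for all `x`. -/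
def IsBicommutative {X' Y' X Y : Type*} (f' : X' → Y') (f : X → Y) (pX : X' → X) (pY : Y' → Y) :
    Prop :=
  (∀ x', f (pX x') = pY (f' x')) ∧ ∀ x, f' '' (pX ⁻¹' {x}) = pY ⁻¹' {f x}

/-- A square of maps is skeletal: it commutes and for every point `x` and every neighbourhood
`U` of `x` there is a nonempty open `V ⊆ f '' U` with `pY ⁻¹' V ⊆ f' '' (pX ⁻¹' U)`. -/
def IsSkeletalSquare {X' Y' X Y : Type*} [TopologicalSpace X] [TopologicalSpace Y]
    (f' : X' → Y') (f : X → Y) (pX : X' → X) (pY : Y' → Y) : Prop :=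
  (∀ x', f (pX x') = pY (f' x')) ∧
    ∀ x, ∀ U ∈ nhds x, ∃ V : Set Y, IsOpen V ∧ V.Nonempty ∧ V ⊆ f '' U ∧
      pY ⁻¹' V ⊆ f' '' (pX ⁻¹' U)

/-- The weight of a topological space: the least cardinality of a base. -/
noncomputable def weight (X : Type u) [TopologicalSpace X] : Cardinal.{u} :=
  sInf {κ | ∃ B : Set (Set X), TopologicalSpace.IsTopologicalBasis B ∧ Cardinal.mk B = κ}

/-- Normal functors on the category of compact Hausdorff spaces, in the sense of Shchepin. -/
structure IsNormal (F : CompHaus.{u} ⥤ CompHaus.{u}) : Prop where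
  /-- `F` is monomorphic -/
  mono : ∀ {X Y : CompHaus.{u}} (f : X ⟶ Y), Function.Injective f → Function.Injective (F.map f)
  /-- `F` is epimorphic -/
  epi : ∀ {X Y : CompHaus.{u}} (f : X ⟶ Y), Function.Surjective f → Function.Surjective (F.map f)
  /-- `F` commutes with limits of inverse spectra -/
  continuous : ∀ (J : Type u) [SmallCategory J] [IsCofiltered J], PreservesLimitsOfShape J F
  /-- `F` preserves intersections of closed subsets (closed subsets are given as images of
  injective maps) -/
  inter : ∀ {X A : CompHaus.{u}} (i : A ⟶ X) {ι : Type u} (B : ι → CompHaus.{u})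
    (j : ∀ k, B k ⟶ X), Function.Injective i → (∀ k, Function.Injective (j k)) →
    Set.range i = ⋂ k, Set.range (j k) → Set.range (F.map i) = ⋂ k, Set.range (F.map (j k))
  /-- `F` preserves the empty space -/
  empty : ∀ X : CompHaus.{u}, IsEmpty X → IsEmpty (F.obj X)
  /-- `F` preserves one-point spaces -/
  point : ∀ X : CompHaus.{u}, (Nonempty X ∧ Subsingleton X) →
    (Nonempty (F.obj X) ∧ Subsingleton (F.obj X))
  /-- `F` does not raise the weight of infinite compacta -/
  weight_le : ∀ X : CompHaus.{u}, Infinite X → weight (F.obj X) ≤ weight X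
  /-- `F` preserves preimages -/
  preimage : ∀ {X' Y' X Y : CompHaus.{u}} (f' : X' ⟶ Y') (f : X ⟶ Y) (pX : X' ⟶ X) (pY : Y' ⟶ Y),
    Function.Injective f' → Function.Injective f → IsBicommutative f' f pX pY →
    IsBicommutative (F.map f') (F.map f) (F.map pX) (F.map pY)

/-- `F` is finitary: it sends finite spaces to finite spaces. -/
def IsFinitary (F : CompHaus.{u} ⥤ CompHaus.{u}) : Prop :=
  ∀ X : CompHaus.{u}, Finite X → Finite (F.obj X)

/-- `F` is skeletal: it sends open surjections to skeletal maps. -/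
def IsSkeletalFunctor (F : CompHaus.{u} ⥤ CompHaus.{u}) : Prop :=
  ∀ {X Y : CompHaus.{u}} (f : X ⟶ Y), Function.Surjective f → IsOpenMap f →
    IsSkeletalMap (F.map f)

end Pool.Agent.Lib.P2f5a6b
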